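import Pool.Agent.Helper6.CX.Goals

/-! # Project CX, packet HALF: half overlap -/

open Equiv

namespace Pool.Agent.Helper51.CX.HALF

open Pool.Agent.Helper6.CX

lemma rot_val1 {n : ℕ} (p : Fin n) (h : p.val + 1 < n) : (finRotate n p).val = p.val + 1 := by
  cases n with
  | zero => exact absurd p.isLt (by omega)
  | succ k =>
    apply coe_finRotate_of_ne_last
    intro h1
    rw [h1] at h
    simp at h

lemma rot_val {n : ℕ} (j : ℕ) (p : Fin n) (h : p.val + j < n) :
    (((finRotate n) ^ j) p).val = p.val + j := by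
  induction j with
  | zero => simp
  | succ j ih =>
    have h1 := ih (by omega)
    rw [pow_succ', Perm.mul_apply, rot_val1 _ (by omega), h1]
    omega

lemma X_val {n m : ℕ} (N₀ : ℕ) (c : ℕ → ℕ) (ι₁ : Perm (Fin n)) {i : ℕ} (hi : i < N₀)
    (hc : (2 * m + 1) * (c i + 1) ≤ n)
    (hfix : ∀ q : Fin n, (∃ i < N₀, c i = q.val / (2 * m + 1)) → ι₁ q = q)
    (r j : ℕ) (q : Fin n) (hq : q.val = (2 * m + 1) * c i + r) (hj : r + j < 2 * m + 1) :
    (((finRotate n * ι₁) ^ j) q).val = (2 * m + 1) * c i + r + j := by
  have hmul : (2 * m + 1) * (c i + 1) = (2 * m + 1) * c i + (2 * m + 1) := by ring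
  induction j with
  | zero => simpa using hq
  | succ j ih =>
    have h1 := ih (by omega)
    rw [pow_succ', Perm.mul_apply]
    set p := ((finRotate n * ι₁) ^ j) q with hp
    rw [Perm.mul_apply]
    have h2 : ι₁ p = p := by
      apply hfix
      refine ⟨i, hi, ?_⟩
      rw [h1]
      symm
      rw [Nat.div_eq_iff (by omega)]
      constructor
      · rw [mul_comm]; omega
      · have : c i * (2 * m + 1) = (2 * m + 1) * c i := mul_comm _ _
        omega
    rw [h2, rot_val1 p (by omega), h1]
    omega

theorem thm : S_HALF := by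
  intro n N m N₀ c φ ι₁ hm hstd hfix
  obtain ⟨hN, hn, hinj, hval⟩ := hstd
  have hinj2 : Function.Injective fun t : Fin N => ((finRotate n) ^ 2) (φ t) := fun a b h =>
    φ.injective (((finRotate n) ^ 2).injective h)
  refine ⟨?_, ?_⟩
  · unfold lay2
    rw [Finset.card_image_of_injective _ hinj2, Finset.card_univ, Fintype.card_fin, hN]
  · have hlt1 : ∀ i : Fin N₀, i.val < N := fun i => by have := i.isLt; omega
    have hlt2 : ∀ i : Fin N₀, i.val + N₀ < N := fun i => by have := i.isLt; omega
    let f : Fin N₀ → Fin n := fun i => ((finRotate n) ^ 2) (φ ⟨i.val + N₀, hlt2 i⟩)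
    have hf : Function.Injective f := by
      intro a b h
      have h1 := hinj2 h
      have h2 := congrArg Fin.val h1
      simp only at h2
      exact Fin.ext (by omega)
    have hsub : Finset.univ.image f ⊆
        (lay2 φ) ∩ (lay2 φ).image ((finRotate n * ι₁) ^ m) := by
      intro x hx
      rw [Finset.mem_image] at hx
      obtain ⟨i, -, rfl⟩ := hx
      have hi := i.isLt
      have hpos : 0 < N₀ := by omega
      have hcn := hn i.val hi
      have hmul : (2 * m + 1) * (c i.val + 1) = (2 * m + 1) * c i.val + (2 * m + 1) := by ring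
      have v1 : (φ ⟨i.val, hlt1 i⟩).val = (2 * m + 1) * c i.val := by
        rw [hval]
        simp only
        rw [Nat.mod_eq_of_lt hi, Nat.div_eq_of_lt hi]
        ring
      have v2 : (φ ⟨i.val + N₀, hlt2 i⟩).val = (2 * m + 1) * c i.val + m := by
        rw [hval]
        simp only
        rw [Nat.add_mod_right, Nat.mod_eq_of_lt hi, Nat.add_div_right _ hpos,
          Nat.div_eq_of_lt hi]
        ring
      rw [Finset.mem_inter]
      constructor
      · exact Finset.mem_image.mpr ⟨_, Finset.mem_univ _, rfl⟩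
      · rw [Finset.mem_image]
        refine ⟨((finRotate n) ^ 2) (φ ⟨i.val, hlt1 i⟩),
          Finset.mem_image.mpr ⟨_, Finset.mem_univ _, rfl⟩, ?_⟩
        apply Fin.ext
        have w1 : (((finRotate n) ^ 2) (φ ⟨i.val, hlt1 i⟩)).val = (2 * m + 1) * c i.val + 2 := by
          rw [rot_val 2 _ (by rw [v1]; omega), v1]
        rw [X_val N₀ c ι₁ hi hcn hfix 2 m _ w1 (by omega)]
        show _ = (((finRotate n) ^ 2) (φ ⟨i.val + N₀, hlt2 i⟩)).val
        rw [rot_val 2 _ (by rw [v2]; omega), v2]
        omega
    have h1 := Finset.card_le_card hsub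
    rw [Finset.card_image_of_injective _ hf, Finset.card_univ, Fintype.card_fin] at h1
    exact h1

end Pool.Agent.Helper51.CX.HALF
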