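import Pool.Agent.Helper6.CX.Goals

/-! # Project CX, packet INV2: every permutation is a product of two involutions -/

open Equiv

namespace Pool.Agent.Helper51.CX.INV2

theorem thm : Pool.Agent.Helper6.CX.S_INV2 := by
  classical
  intro N g
  let s := Perm.SameCycle.setoid g
  let bs : Fin N → Fin N := fun y => (Quotient.mk s y).out
  have hb : ∀ y, Perm.SameCycle g (bs y) y := fun y => Quotient.mk_out (s := s) y
  have hbe : ∀ y y', Perm.SameCycle g y y' → bs y = bs y' := fun y y' h =>
    congrArg Quotient.out (Quotient.sound (s := s) h)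
  choose i hi using hb
  let τ : Fin N → Fin N := fun y => (g ^ (-(i y))) (bs y)
  have key : ∀ (y : Fin N) (j : ℤ), (g ^ j) (bs y) = y → τ y = (g ^ (-j)) (bs y) := by
    intro y j hj
    have h1 : (g ^ (i y)) (bs y) = (g ^ j) (bs y) := by rw [hi y, hj]
    have h2 := congrArg (g ^ (-(i y) - j)) h1
    rw [← Perm.mul_apply, ← Perm.mul_apply, ← zpow_add, ← zpow_add] at h2
    have e1 : -(i y) - j + i y = -j := by ring
    have e2 : -(i y) - j + j = -(i y) := by ring
    rw [e1, e2] at h2
    exact h2.symm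
  have key2 : ∀ (y : Fin N) (j : ℤ), τ ((g ^ j) (bs y)) = (g ^ (-j)) (bs y) := by
    intro y j
    have h1 : bs ((g ^ j) (bs y)) = bs y := by
      apply (hbe y _ _).symm
      have h2 : Perm.SameCycle g y (bs y) := (show Perm.SameCycle g (bs y) y from ⟨i y, hi y⟩).symm
      exact h2.trans ⟨j, rfl⟩
    have h3 := key ((g ^ j) (bs y)) j (by rw [h1])
    rw [h1] at h3
    exact h3
  have hinv : ∀ y, τ (τ y) = y := by
    intro y
    have h1 : τ (τ y) = (g ^ (-(-(i y)))) (bs y) := key2 y (-(i y))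
    rw [h1, neg_neg, hi y]
  have hinv2 : ∀ y, τ (g (τ (g y))) = y := by
    intro y
    have h1 : g y = (g ^ (1 + i y)) (bs y) := by
      rw [zpow_add, zpow_one, Perm.mul_apply, hi y]
    have h2 : τ (g y) = (g ^ (-(1 + i y))) (bs y) := by rw [h1]; exact key2 y _
    have h3 : g (τ (g y)) = (g ^ (-(i y))) (bs y) := by
      rw [h2, ← Perm.mul_apply, ← zpow_one_add]
      congr 2
      ring
    have h4 : τ (g (τ (g y))) = (g ^ (-(-(i y)))) (bs y) := by rw [h3]; exact key2 y _
    rw [h4, neg_neg, hi y]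
  let a : Perm (Fin N) := ⟨τ, τ, hinv, hinv⟩
  have ha : a * a = 1 := by
    ext y
    exact congrArg Fin.val (hinv y)
  refine ⟨a, a * g, ha, ?_, ?_⟩
  · ext y
    exact congrArg Fin.val (hinv2 y)
  · rw [← mul_assoc, ha, one_mul]

end Pool.Agent.Helper51.CX.INV2
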